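import Mathlib
import Pool.Agent.V11242.PL.Forced
import Pool.Agent.V11242.PL.Main

set_option autoImplicit false

namespace Pool.Agent.Results.MP_f5469c_gt.PlasticSmallSubgroup

open Cardinal Pool.Agent.TH773.PSet Pool.Agent.V11242.PL

/-- (1) There is a ccc partial order `P`, and there is a linearly ordered set `K` without a maximum
all of whose proper initial segments are countable, such that `P` forces the sentence `Phi K`.
(2) In ZFC, if `K` is such a linearly ordered set and `Phi K` holds, then there is a dense subgroup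
`G` of `ℝ` with `|G| < 𝔠` such that every non-expansive injection from `G` to `G` is an isometry; in
particular, `G` is plastic. -/
theorem result :
    (∃ (K P : Type) (_ : LinearOrder K) (_ : NoMaxOrder K) (_ : Preorder P),
      (∀ k : K, (Set.Iic k).Countable) ∧ Nonempty P ∧
      (∀ A : Set P, (∀ p ∈ A, ∀ q ∈ A, p ≠ q → ¬ ∃ r, r ≤ p ∧ r ≤ q) → A.Countable) ∧
      ∀ p : P, p ∈ PhiForces P K) ∧
    (∀ (K : Type) [LinearOrder K] [NoMaxOrder K], (∀ k : K, (Set.Iic k).Countable) → Phi K →
      ∃ G : AddSubgroup ℝ, Dense (G : Set ℝ) ∧ #G < 𝔠 ∧ Plastic G ∧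
        ∀ f : G → G, Function.Injective f → NonExpansive f → ∀ x y, dist (f x) (f y) = dist x y) := by
  refine ⟨exists_forcing, ?_⟩
  intro K _ _ hI hPhi
  obtain ⟨⟨x, hx⟩, hcov⟩ := hPhi
  exact ⟨Gp x, dense_Gp x, mk_Gp_lt x (mk_lt hcov),
    fun f hf hf' => isometry_of_injective hI hx f hf.injective hf',
    fun f hf hf' => isometry_of_injective hI hx f hf hf'⟩

end Pool.Agent.Results.MP_f5469c_gt.PlasticSmallSubgroup
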